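import Pool.Agent.ZAR.Stmts

/-!
# Row NZC: the critical variety of a nonzero radical ideal is not the whole space
-/

namespace Pool.Agent.ZAR.H25

open MvPowerSeries

section aux

variable {m : ℕ} {L : Type} [Field L]

/-- The value at `w` of the homogeneous part of degree `d`. -/
noncomputable def Hd (w : Fin m → L) (d : ℕ) (f : MvPowerSeries (Fin m) L) : L :=
  ∑ e ∈ Finset.finsuppAntidiag Finset.univ d, coeff e f * ∏ i, w i ^ e i

theorem Hd_zero (w : Fin m → L) (f : MvPowerSeries (Fin m) L) :
    Hd w 0 f = constantCoeff f := by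
  unfold Hd
  rw [Finset.finsuppAntidiag_zero, Finset.sum_singleton]
  simp

theorem mem_fa (d : ℕ) (e : Fin m →₀ ℕ) :
    e ∈ Finset.finsuppAntidiag (Finset.univ : Finset (Fin m)) d ↔ ∑ i, e i = d := by
  rw [Finset.mem_finsuppAntidiag]
  simp

theorem sum_add_single (e : Fin m →₀ ℕ) (j : Fin m) :
    ∑ i, (e + Finsupp.single j 1 : Fin m →₀ ℕ) i = ∑ i, e i + 1 := by
  simp only [Finsupp.add_apply, Finset.sum_add_distrib]
  congr 1
  rw [Finset.sum_eq_single j]
  · simp
  · intro b _ hb
    exact Finsupp.single_eq_of_ne hb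
  · simp

theorem prod_add_single (w : Fin m → L) (e : Fin m →₀ ℕ) (j : Fin m) :
    ∏ i, w i ^ (e + Finsupp.single j 1 : Fin m →₀ ℕ) i = w j * ∏ i, w i ^ e i := by
  simp only [Finsupp.add_apply, pow_add, Finset.prod_mul_distrib]
  rw [mul_comm]
  congr 1
  rw [Finset.prod_eq_single j]
  · simp
  · intro b _ hb
    rw [Finsupp.single_eq_of_ne hb, pow_zero]
  · simp

theorem Hd_D (w : Fin m → L) (d : ℕ) (f : MvPowerSeries (Fin m) L) :
    Hd w d (∑ j, C (w j) * pderiv L j f) = (d + 1 : ℕ) * Hd w (d + 1) f := by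
  have h1 : ∀ j : Fin m, ∑ e ∈ Finset.finsuppAntidiag (Finset.univ : Finset (Fin m)) d,
      (((e + Finsupp.single j 1 : Fin m →₀ ℕ) j : ℕ) : L) * (coeff (e + Finsupp.single j 1) f *
        ∏ i, w i ^ (e + Finsupp.single j 1 : Fin m →₀ ℕ) i) =
      ∑ e ∈ Finset.finsuppAntidiag (Finset.univ : Finset (Fin m)) (d + 1),
        ((e j : ℕ) : L) * (coeff e f * ∏ i, w i ^ e i) := by
    intro j
    refine Finset.sum_of_injOn (fun e => e + Finsupp.single j 1) ?_ ?_ ?_ ?_
    · intro a _ b _ hab
      exact add_right_cancel hab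
    · intro a ha
      have ha' := (mem_fa d a).1 (Finset.mem_coe.1 ha)
      refine Finset.mem_coe.2 ((mem_fa (d + 1) _).2 ?_)
      rw [sum_add_single, ha']
    · intro a ha hna
      have ha' := (mem_fa (d + 1) a).1 ha
      have h0 : a j = 0 := by
        by_contra hne
        apply hna
        have hle : Finsupp.single j 1 ≤ a := by
          rw [Finsupp.single_le_iff]
          omega
        refine ⟨a - Finsupp.single j 1, ?_, ?_⟩
        · refine Finset.mem_coe.2 ((mem_fa d _).2 ?_)
          have := sum_add_single (a - Finsupp.single j 1) j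
          rw [tsub_add_cancel_of_le hle, ha'] at this
          omega
        · exact tsub_add_cancel_of_le hle
      rw [h0, Nat.cast_zero, zero_mul]
    · intro a _
      rfl
  unfold Hd
  calc ∑ e ∈ Finset.finsuppAntidiag (Finset.univ : Finset (Fin m)) d,
        coeff e (∑ j, C (w j) * pderiv L j f) * ∏ i, w i ^ e i
      = ∑ e ∈ Finset.finsuppAntidiag (Finset.univ : Finset (Fin m)) d, ∑ j,
        (((e + Finsupp.single j 1 : Fin m →₀ ℕ) j : ℕ) : L) * (coeff (e + Finsupp.single j 1) f *
        ∏ i, w i ^ (e + Finsupp.single j 1 : Fin m →₀ ℕ) i) := by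
        refine Finset.sum_congr rfl fun e _ => ?_
        rw [map_sum, Finset.sum_mul]
        refine Finset.sum_congr rfl fun j _ => ?_
        rw [coeff_C_mul, coeff_pderiv, prod_add_single]
        simp only [Finsupp.add_apply, Finsupp.single_eq_same, Nat.cast_add, Nat.cast_one]
        ring
    _ = ∑ j, ∑ e ∈ Finset.finsuppAntidiag (Finset.univ : Finset (Fin m)) (d + 1),
        ((e j : ℕ) : L) * (coeff e f * ∏ i, w i ^ e i) := by
        rw [Finset.sum_comm]
        exact Finset.sum_congr rfl fun j _ => h1 j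
    _ = _ := by
        rw [Finset.sum_comm, Finset.mul_sum]
        refine Finset.sum_congr rfl fun e he => ?_
        rw [← Finset.sum_mul, ← Nat.cast_sum, (mem_fa (d + 1) e).1 he]

theorem coeff_evL (w : Fin m → L) (d : ℕ) (f : MvPowerSeries (Fin m) L) :
    coeff (Finsupp.single 0 d) (evL w f) = Hd w d f := by
  have hs : HasSubst (fun i => (C (w i) * X 0 : MvPowerSeries (Fin 1) L)) :=
    hasSubst_of_constantCoeff_zero (by simp)
  unfold evL Hd
  rw [coeff_subst hs]
  have hco : ∀ e : Fin m →₀ ℕ, coeff (Finsupp.single (0 : Fin 1) d)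
      (e.prod fun s k => (C (w s) * X 0 : MvPowerSeries (Fin 1) L) ^ k) =
      if ∑ i, e i = d then ∏ i, w i ^ e i else 0 := by
    intro e
    have h1 : (e.prod fun s k => (C (w s) * X 0 : MvPowerSeries (Fin 1) L) ^ k) =
        C (∏ i, w i ^ e i) * X 0 ^ (∑ i, e i) := by
      rw [Finsupp.prod_fintype _ _ (by simp)]
      simp only [mul_pow, Finset.prod_mul_distrib, map_prod, map_pow, Finset.prod_pow_eq_pow_sum]
    rw [h1, coeff_C_mul, coeff_X_pow]
    by_cases h : ∑ i, e i = d
    · rw [if_pos (by rw [h]), if_pos h, mul_one]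
    · rw [if_neg, if_neg h, mul_zero]
      intro h'
      apply h
      have := DFunLike.congr_fun h' (0 : Fin 1)
      simpa using this.symm
  rw [finsum_eq_sum_of_support_subset (s := Finset.finsuppAntidiag Finset.univ d)]
  · refine Finset.sum_congr rfl fun e he => ?_
    rw [hco, if_pos ((mem_fa d e).1 he), smul_eq_mul]
  · intro e he
    refine Finset.mem_coe.2 ((mem_fa d e).2 ?_)
    by_contra hne
    apply he
    show coeff e f • coeff (Finsupp.single (0 : Fin 1) d)
      (e.prod fun s k => (C (w s) * X 0 : MvPowerSeries (Fin 1) L) ^ k) = 0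
    rw [hco, if_neg hne, smul_zero]

/-- A derivation over the integers from an additive map with the Leibniz rule. -/
noncomputable def mkD (R : Type) [CommRing R] (D : R →+ R)
    (h : ∀ a b, D (a * b) = a * D b + b * D a) : Derivation ℤ R R :=
  Derivation.mk' D.toIntLinearMap h

theorem mkD_apply (R : Type) [CommRing R] (D : R →+ R)
    (h : ∀ a b, D (a * b) = a * D b + b * D a) (a : R) : mkD R D h a = D a := rfl

/-- The additive map `∑ w_j ∂_j`. -/
noncomputable def Da (w : Fin m → L) : MvPowerSeries (Fin m) L →+ MvPowerSeries (Fin m) L where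
  toFun f := ∑ j, C (w j) * pderiv L j f
  map_zero' := by simp
  map_add' a b := by simp [mul_add, Finset.sum_add_distrib]

theorem Da_apply (w : Fin m → L) (f : MvPowerSeries (Fin m) L) :
    Da w f = ∑ j, C (w j) * pderiv L j f := rfl

theorem Da_leib (w : Fin m → L) (a b : MvPowerSeries (Fin m) L) :
    Da w (a * b) = a * Da w b + b * Da w a := by
  simp only [Da_apply, Finset.mul_sum]
  rw [← Finset.sum_add_distrib]
  refine Finset.sum_congr rfl fun j _ => ?_
  rw [Derivation.leibniz, smul_eq_mul, smul_eq_mul]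
  ring

theorem Dw_iter (w : Fin m → L) (d : ℕ) : ∀ f : MvPowerSeries (Fin m) L,
    constantCoeff ((Da w)^[d] f) = (d.factorial : L) * Hd w d f := by
  induction d with
  | zero => intro f; simp [Hd_zero]
  | succ d ih =>
    intro f
    rw [Function.iterate_succ_apply, ih, Da_apply, Hd_D, Nat.factorial_succ]
    push_cast
    ring

end aux

section main

variable {n : ℕ} {K L : Type} [Field K] [Field L] [Algebra K L]

theorem xu_X (u : Fin n → Fin (n + 1) → L) :
    xu (K := K) u X = fun i => ∑ j, C (u i j) * X j := by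
  funext i
  unfold xu bc
  simp only [map_X]

theorem jac_xu (u : Fin n → Fin (n + 1) → L) (f : MvPowerSeries (Fin (n + 1)) L) :
    jac (xu (K := K) u X) f = ∑ j, C (kv u j) * pderiv L j f := by
  rw [xu_X]
  unfold jac
  rw [Matrix.det_succ_row_zero]
  refine Finset.sum_congr rfl fun j _ => ?_
  have h1 : ((Matrix.of fun a j : Fin (n + 1) => pderiv L j
      ((Fin.cons f (fun i => ∑ j, C (u i j) * X j) :
        Fin (n + 1) → MvPowerSeries (Fin (n + 1)) L) a)).submatrix Fin.succ j.succAbove) =
      (Matrix.of fun i k : Fin n => u i (j.succAbove k)).map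
        (C : L →+* MvPowerSeries (Fin (n + 1)) L) := by
    ext1 i k
    rw [Matrix.submatrix_apply, Matrix.of_apply, Matrix.map_apply, Matrix.of_apply,
      Fin.cons_succ, map_sum, Finset.sum_eq_single (j.succAbove k)]
    · rw [Derivation.leibniz, pderiv_C, pderiv_X_self, smul_zero, add_zero, smul_eq_mul, mul_one]
    · intro b _ hb
      rw [Derivation.leibniz, pderiv_C, pderiv_X_of_ne hb, smul_zero, smul_zero, add_zero]
    · simp
  rw [h1, ← RingHom.mapMatrix_apply, ← RingHom.map_det, Matrix.of_apply, Fin.cons_zero]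
  unfold kv
  rw [map_mul, map_pow, map_neg, map_one]
  ring

theorem nzc (hNZA : NZAStmt) (hWEI : WEIStmt) (hGVK : GVKStmt) : NZCStmt := by
  intro K L _ _ _ _ n u I hu hI
  obtain ⟨f, hf, hf0⟩ := Submodule.exists_mem_ne_zero_of_ne_bot hI
  obtain ⟨e0, he0⟩ : ∃ e, coeff e f ≠ 0 := by
    by_contra h
    push Not at h
    exact hf0 (by ext e; rw [h e, map_zero])
  set d := ∑ i, e0 i with hd
  set w := kv u with hw
  set g := bc K L (Fin (n + 1)) f with hg
  have hcz : CharZero L := charZero_of_injective_algebraMap (algebraMap K L).injective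
  obtain ⟨-, hF⟩ := hGVK K L n u hu
  -- the leading form
  have hHd : Hd w d g ≠ 0 := by
    let F : MvPolynomial (Fin (n + 1)) K :=
      ∑ e ∈ Finset.finsuppAntidiag Finset.univ d, MvPolynomial.monomial e (coeff e f)
    have hFh : F.IsHomogeneous d := by
      refine MvPolynomial.IsHomogeneous.sum _ _ _ fun e he => ?_
      refine MvPolynomial.isHomogeneous_monomial _ ?_
      rw [Finsupp.degree_eq_sum]
      exact (mem_fa d e).1 he
    have hFne : F ≠ 0 := by
      intro h
      apply he0
      have h2 : MvPolynomial.coeff e0 F = coeff e0 f := by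
        simp only [F, MvPolynomial.coeff_sum, MvPolynomial.coeff_monomial]
        rw [Finset.sum_ite_eq' _ e0, if_pos ((mem_fa d e0).2 hd.symm)]
      rw [← h2, h, MvPolynomial.coeff_zero]
    have h3 := hF d F hFh hFne
    have h4 : MvPolynomial.aeval (kv u) F = Hd w d g := by
      simp only [F, map_sum, Hd]
      refine Finset.sum_congr rfl fun e _ => ?_
      rw [MvPolynomial.aeval_monomial, hg]
      unfold bc
      rw [coeff_map, Finsupp.prod_fintype _ _ (by simp)]
    rw [h4] at h3
    exact h3
  have hwne : ∀ j, w j ≠ 0 := by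
    intro j
    have h := hF 1 (MvPolynomial.X j) (MvPolynomial.isHomogeneous_X K j) (MvPolynomial.X_ne_zero j)
    rwa [MvPolynomial.aeval_X] at h
  have hev : evL w g ≠ 0 := by
    intro h
    apply hHd
    rw [← coeff_evL, h, map_zero]
  have hs : HasSubst (fun i => (∑ j, C (u i j) * X j : MvPowerSeries (Fin (n + 1)) L)) :=
    hasSubst_of_constantCoeff_zero (by simp)
  let θ : MvPowerSeries (Fin n) L →+* MvPowerSeries (Fin (n + 1)) L :=
    (substAlgHom (R := L) hs).toRingHom
  have hθ : ∀ a, θ a = subst (fun i => (∑ j, C (u i j) * X j :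
      MvPowerSeries (Fin (n + 1)) L)) a := fun a => substAlgHom_apply hs a
  have hgI : g ∈ extI L I := Ideal.le_radical (Ideal.mem_map_of_mem _ hf)
  have hunit : IsUnit ((Da w)^[d] g) := by
    rw [MvPowerSeries.isUnit_iff_constantCoeff, Dw_iter]
    refine IsUnit.mk0 _ (mul_ne_zero ?_ hHd)
    exact_mod_cast d.factorial_ne_zero
  have hint : ∀ r : MvPowerSeries (Fin (n + 1)) L,
      ∃ p : Polynomial (MvPowerSeries (Fin n) L), p.Monic ∧ p.eval₂ θ r ∈ extI L I := by
    intro r
    obtain ⟨p, hp, h, hph⟩ := hWEI L n u g hwne hev r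
    refine ⟨p, hp, ?_⟩
    rw [Polynomial.eval₂_eq_sum_range]
    rw [xu_X] at hph
    simp only [hθ]
    rw [hph]
    exact Ideal.mul_mem_left _ _ hgI
  have hdom : IsDomain (MvPowerSeries (Fin n) L) := NoZeroDivisors.to_isDomain _
  obtain ⟨a, ha0, ha⟩ := hNZA (MvPowerSeries (Fin n) L) (MvPowerSeries (Fin (n + 1)) L) θ
    (mkD _ (Da w) (Da_leib w)) (extI L I) g d (Ideal.radical_isRadical _) hgI hunit hint
  intro hbot
  apply ha0
  rw [← Ideal.mem_bot, ← hbot]
  unfold critI proj
  refine Ideal.le_radical (Ideal.subset_span ?_)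
  show subst (xu (K := K) u X) a ∈ critLocus (xu (K := K) u X) (extI L I)
  rw [hθ] at ha
  unfold critLocus
  have hjac : jac (xu (K := K) u X) = mkD _ (Da w) (Da_leib w) := by
    funext h
    rw [jac_xu, mkD_apply, Da_apply]
  rw [hjac, xu_X]
  exact ha

end main

end Pool.Agent.ZAR.H25
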